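import Pool.Agent.Helper38.WM.St

/-!
Project WM (helper38), module NUM: numerical consequence of the Golod-Shafarevich inequality.
-/

set_option autoImplicit false

namespace Pool.Agent.Helper36.WM

open Pool.Agent.Helper38.WM

theorem hNUM : Pool.Agent.Helper38.WM.StNUM := by
  classical
  intro ι e d t b ht0 ht1 he hs hneg hb0 hineq N hN
  have hfin : ∀ n : ℕ, {i | e i ≤ n}.Finite := by
    intro n
    have h1 := hs.tendsto_cofinite_zero
    have h2 : ∀ᶠ i in Filter.cofinite, t ^ e i < t ^ n :=
      h1.eventually (gt_mem_nhds (pow_pos ht0 n))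
    rw [Filter.eventually_cofinite] at h2
    refine h2.subset fun i hi => ?_
    show ¬ t ^ e i < t ^ n
    rw [not_lt]
    exact pow_le_pow_of_le_one ht0.le ht1.le hi
  set c := ∑' i, t ^ e i with hc
  have hc0 : 0 ≤ c := tsum_nonneg fun i => (pow_pos ht0 _).le
  set T := ∑ n ∈ Finset.range N, (b n : ℝ) * t ^ n with hTdef
  have hT : 0 ≤ T := Finset.sum_nonneg fun n _ => by positivity
  have h1 : ∀ n ∈ Finset.range N, t ^ (n + 1) + d * t * (b n * t ^ n) ≤
      b (n + 1) * t ^ (n + 1) + ∑ i ∈ (hfin n).toFinset, (b (n + 1 - e i) : ℝ) * t ^ (n + 1) := by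
    intro n _
    have h2 := hineq n (hfin n).toFinset (fun i => by simp)
    have h3 : (1 : ℝ) + d * b n ≤ b (n + 1) + ∑ i ∈ (hfin n).toFinset, (b (n + 1 - e i) : ℝ) := by
      exact_mod_cast h2
    have h4 := mul_le_mul_of_nonneg_right h3 (pow_pos ht0 (n + 1)).le
    have h5 : ((b (n + 1) : ℝ) + ∑ i ∈ (hfin n).toFinset, (b (n + 1 - e i) : ℝ)) * t ^ (n + 1)
        = b (n + 1) * t ^ (n + 1)
          + ∑ i ∈ (hfin n).toFinset, (b (n + 1 - e i) : ℝ) * t ^ (n + 1) := by
      rw [add_mul, Finset.sum_mul]
    rw [h5] at h4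
    calc t ^ (n + 1) + d * t * (b n * t ^ n) = (1 + d * b n) * t ^ (n + 1) := by ring
      _ ≤ _ := h4
  have h2 := Finset.sum_le_sum h1
  rw [Finset.sum_add_distrib, Finset.sum_add_distrib, ← Finset.mul_sum] at h2
  have h3 : ∑ n ∈ Finset.range N, ∑ i ∈ (hfin n).toFinset,
      (b (n + 1 - e i) : ℝ) * t ^ (n + 1) ≤ c * T := by
    calc ∑ n ∈ Finset.range N, ∑ i ∈ (hfin n).toFinset, (b (n + 1 - e i) : ℝ) * t ^ (n + 1)
        = ∑ n ∈ Finset.range N, ∑ i ∈ (hfin N).toFinset,
            (if e i ≤ n then (b (n + 1 - e i) : ℝ) * t ^ (n + 1) else 0) := by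
          refine Finset.sum_congr rfl fun n hn => ?_
          rw [← Finset.sum_filter]
          refine Finset.sum_congr ?_ fun _ _ => rfl
          ext i
          rw [Finset.mem_range] at hn
          simp only [Set.Finite.mem_toFinset, Finset.mem_filter]
          constructor
          · intro h
            have h' : e i ≤ n := h
            exact ⟨show e i ≤ N by omega, h'⟩
          · exact fun h => h.2
      _ = ∑ i ∈ (hfin N).toFinset, ∑ n ∈ Finset.range N,
            (if e i ≤ n then (b (n + 1 - e i) : ℝ) * t ^ (n + 1) else 0) := Finset.sum_comm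
      _ ≤ ∑ i ∈ (hfin N).toFinset, t ^ e i * T := by
          refine Finset.sum_le_sum fun i _ => ?_
          rw [← Finset.sum_filter, hTdef, Finset.mul_sum]
          have hei := he i
          have e1 : ∑ n ∈ (Finset.range N).filter (fun n => e i ≤ n),
              (b (n + 1 - e i) : ℝ) * t ^ (n + 1)
              = ∑ m ∈ ((Finset.range N).filter (fun n => e i ≤ n)).image
                  (fun n => n + 1 - e i), t ^ e i * ((b m : ℝ) * t ^ m) := by
            rw [Finset.sum_image]
            · refine Finset.sum_congr rfl fun n hn => ?_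
              have hn2 : e i ≤ n := (Finset.mem_filter.1 hn).2
              have e2 : t ^ (n + 1) = t ^ e i * t ^ (n + 1 - e i) := by
                rw [← pow_add]
                congr 1
                omega
              rw [e2]
              ring
            · intro x hx y hy hxy
              have hx2 : e i ≤ x := (Finset.mem_filter.1 hx).2
              have hy2 : e i ≤ y := (Finset.mem_filter.1 hy).2
              have hxy' : x + 1 - e i = y + 1 - e i := hxy
              omega
          rw [e1]
          apply Finset.sum_le_sum_of_subset_of_nonneg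
          · intro m hm
            obtain ⟨n, hn, rfl⟩ := Finset.mem_image.1 hm
            have hn1 := Finset.mem_range.1 (Finset.mem_filter.1 hn).1
            rw [Finset.mem_range]
            omega
          · intro m _ _
            positivity
      _ = (∑ i ∈ (hfin N).toFinset, t ^ e i) * T := by rw [Finset.sum_mul]
      _ ≤ c * T := by
          apply mul_le_mul_of_nonneg_right _ hT
          exact hs.sum_le_tsum _ fun i _ => (pow_pos ht0 _).le
  have h4 : ∑ n ∈ Finset.range N, (b (n + 1) : ℝ) * t ^ (n + 1) = T + b N * t ^ N := by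
    have h5 := Finset.sum_range_succ (fun n => (b n : ℝ) * t ^ n) N
    have h6 := Finset.sum_range_succ' (fun n => (b n : ℝ) * t ^ n) N
    rw [h5] at h6
    simp only [hb0, Nat.cast_zero, zero_mul, add_zero] at h6
    exact h6.symm
  have h5 : t ≤ ∑ n ∈ Finset.range N, t ^ (n + 1) := by
    have h6 : t ^ (0 + 1) ≤ ∑ n ∈ Finset.range N, t ^ (n + 1) :=
      Finset.single_le_sum (f := fun n => t ^ (n + 1)) (fun n _ => (pow_pos ht0 _).le)
        (Finset.mem_range.2 hN)
    simpa using h6
  rw [h4] at h2
  have h6 : t ≤ b N * t ^ N := by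
    nlinarith
  refine le_trans ?_ h6
  have hd : 1 < d * t := by linarith
  have hd0 : (0 : ℝ) < d := by
    by_contra h
    have h7 : (d : ℝ) ≤ 0 := not_lt.1 h
    nlinarith
  rw [div_le_iff₀ hd0]
  linarith

end Pool.Agent.Helper36.WM
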